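import Mathlib
import Pool.Agent.helper35.DR.SpecP

/-!
# Project dr (MP_baa4d7_al), module PFM: the block of the family `fam χ`
-/

set_option autoImplicit false

namespace Pool.Agent.DR

open Pool.Agent.helper58.DC Pool.Agent.DI

theorem PFM (hPDL : PDL_stmt) (hIRP : IRP_stmt) (hIP : IP_stmt) (hIF : IF_stmt) (hTI : TI_stmt)
    (hSK : SK_stmt) (hPT : PT_stmt) : PFM_stmt := by
  intro G E A _ _ _ _ _ X p _ M χ hχ hst
  have hfam : ∀ t, fam χ t ∈ Irr G := by
    intro t
    unfold fam two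
    split_ifs
    · exact hχ
    · exact ((hPDL G χ χ).2.2.1).2 hχ
  have h1 : tens (fam χ) ∈ Irr (TT → G) := hIRP TT (fun _ => G) (fam χ) hfam
  refine ⟨h1, ?_, fun hop => (hPT G TT p M χ hχ).2.2 hop⟩
  intro e
  have h2 := (hSK G E A A TT X (diag A) M).1 e (fam χ)
  have h3 : funMap ((X2 X).act e) (tens (fam χ)) =
      tens fun s => funMap (X.act (e.f s)) (fam χ s) := h2
  rw [h3]
  refine (hIP G TT M (fun _ => ⊤) (fun s => funMap (X.act (e.f s)) (fam χ s)) (fam χ) ?_ hfam).2 ?_
  · intro t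
    have h4 := ((hIF G ⊤).2 (fam χ t) ((hTI G _).2 (hfam t))).2.2 (X.act (e.f t))
    have h5 : (⊤ : Subgroup G).map (X.act (e.f t)).toMonoidHom = ⊤ :=
      Subgroup.map_top_of_surjective _ (X.act (e.f t)).surjective
    rw [h5] at h4
    exact h4
  · intro t
    unfold fam two
    split_ifs
    · exact hst (e.f t)
    · have h6 : funMap (X.act (e.f t)) (dl χ) = dl (funMap (X.act (e.f t)) χ) := by
        funext g
        simp only [funMap, dl, map_inv]
      rw [h6]
      exact ((hPDL G (funMap (X.act (e.f t)) χ) χ).2.2.2.2.1 M).2 (hst (e.f t))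

end Pool.Agent.DR
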