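import Mathlib
import Pool.Agent.helper35.DR.SpecT

/-!
# Project dr (MP_baa4d7_al), module TCL: the number of invariant characters over `ψ`
-/

set_option autoImplicit false

namespace Pool.Agent.DR

open Pool.Agent.helper58.DC Pool.Agent.DI

theorem TCL (hTFW : TFW_stmt) (hTBW : TBW_stmt) (hTIV : TIV_stmt) : TCL_stmt := by
  classical
  intro Γ Q _ _ _ _ q S hS ψ hψ α hα hAsc N hN P
  obtain ⟨V, _, _, _, T, hT⟩ := hAsc
  unfold GN
  symm
  have key : ∀ (σ : Q → ℂ) (k : ℕ), PIrr N α⁻¹ σ k → PInv N α⁻¹ σ →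
      (fun x => if x ∈ S ⊓ N.comap q then LinearMap.trace ℂ V (T x) * σ (q x) else 0) ∈
        IrrOn (S ⊓ N.comap q) ∧
      (∀ x ∈ S ⊓ q.ker, (if x ∈ S ⊓ N.comap q then LinearMap.trace ℂ V (T x) * σ (q x) else 0) =
        k * ψ x) ∧
      ∀ s ∈ S, funMap (MulAut.conj s)
        (fun x => if x ∈ S ⊓ N.comap q then LinearMap.trace ℂ V (T x) * σ (q x) else 0) =
        (fun x => if x ∈ S ⊓ N.comap q then LinearMap.trace ℂ V (T x) * σ (q x) else 0) := by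
    intro σ k h1 h2
    have hx1 : ∀ x ∈ S ⊓ N.comap q,
        (fun x => if x ∈ S ⊓ N.comap q then LinearMap.trace ℂ V (T x) * σ (q x) else 0) x =
          LinearMap.trace ℂ V (T x) * σ (q x) := fun x hx => if_pos hx
    have hx2 : ∀ x, x ∉ S ⊓ N.comap q →
        (fun x => if x ∈ S ⊓ N.comap q then LinearMap.trace ℂ V (T x) * σ (q x) else 0) x = 0 :=
      fun x hx => if_neg hx
    have h3 := hTFW Γ Q q S hS ψ hψ α hα V T hT N σ k h1 _ hx1 hx2
    have h4 := (hTIV Γ Q q S hS ψ hψ α hα V T hT N hN _ σ hx2 hx1).1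
    exact ⟨h3.1, h3.2, h4.2 h2⟩
  refine Nat.card_eq_of_bijective
    (fun σ => ⟨fun x => if x ∈ S ⊓ N.comap q then LinearMap.trace ℂ V (T x) * σ.1 (q x) else 0,
      ?_⟩) ⟨?_, ?_⟩
  · obtain ⟨k, h1, h2, h3⟩ := σ.2
    have h := key σ.1 k h1 h3
    exact ⟨h.1, ⟨k, h2, h.2.1⟩, h.2.2⟩
  · rintro ⟨σ, k, h1, h2, h3⟩ ⟨σ', k', h1', h2', h3'⟩ h
    refine Subtype.ext ?_
    have h0 := congrArg Subtype.val h
    simp only at h0
    have hx1 : ∀ x ∈ S ⊓ N.comap q,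
        (fun x => if x ∈ S ⊓ N.comap q then LinearMap.trace ℂ V (T x) * σ (q x) else 0) x =
          LinearMap.trace ℂ V (T x) * σ (q x) := fun x hx => if_pos hx
    have hx2 : ∀ x, x ∉ S ⊓ N.comap q →
        (fun x => if x ∈ S ⊓ N.comap q then LinearMap.trace ℂ V (T x) * σ (q x) else 0) x = 0 :=
      fun x hx => if_neg hx
    have h4 := (hTIV Γ Q q S hS ψ hψ α hα V T hT N hN _ σ hx2 hx1).2 σ' (fun x hx => by
      have h5 := congrFun h0 x
      rw [h5]; exact if_pos hx)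
    funext n
    change σ n = σ' n
    by_cases hn : n ∈ N
    · exact (h4 n hn).symm
    · rw [h1.off n hn, h1'.off n hn]
  · rintro ⟨φ, h1, ⟨e, he, h2⟩, h3⟩
    obtain ⟨σ, hσ, h4⟩ := hTBW Γ Q q S hS ψ hψ α hα V T hT N φ h1 e h2
    have h5 : ∀ x, x ∉ S ⊓ N.comap q → φ x = 0 := h1.1
    have h6 := (hTIV Γ Q q S hS ψ hψ α hα V T hT N hN φ σ h5 h4).1.1 h3
    refine ⟨⟨σ, e, hσ, he, h6⟩, Subtype.ext ?_⟩
    funext x
    by_cases hx : x ∈ S ⊓ N.comap q
    · simp only [if_pos hx]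
      exact (h4 x hx).symm
    · simp only [if_neg hx]
      exact (h5 x hx).symm

end Pool.Agent.DR
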